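import Pool.Agent.Zk8.KT.Summ

/-!
# Exact densities of the ordinary primes for summands of motives of K3 type

Let `F` be a number field and `X i` (`i` in a finite set `ι`) projective hyperkähler varieties over `F`,
for example K3 surfaces. `E i` is the endomorphism field of the transcendental part of `H²(X i)`, and `L` the
finite Galois extension of `F` over which the endomorphisms in the fields `E i` are defined; `Gal (L / F)`
is the group `image`.

Let `W` be any variety (given by its Hodge and Newton slopes at the places of good reduction) built
from the `X i` and from varieties which are ordinary at almost all places by products, direct sums,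
Tate twists and direct summands (so also by projective bundles, blow-ups and surjective images), for
example a compactification of `𝒴` in the setting of the problem, and let `S k` be finitely many summands of
its cohomology, in arbitrary degrees, for example motives of intersection cohomology.

1. The primes at which all `S k` are ordinary (for all pairs `(ℓ, τ)`) have lower density at least
   `1 / [L : F]`; in particular almost all primes are ordinary after the explicit extension `L / F`.
2. Let `R i` be summands of `H²(X i)` which contain the classes of type `(2,0)` and `(0,2)`. The primes at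
   which all `R i` and all `S k` are ordinary (for all `(ℓ, τ)`) have natural density exactly
   `1 / [L : F]`. In particular the ordinary primes for `R = ⊕ R i` have density `1 / [L : F]`.
3. The primes at which `Newton_τ (Frob, R i)` has exactly `h i` slopes smaller than one, for all `i` and
   all `(ℓ, τ)`, have a natural density, the proportion of the elements of `Gal (L / F)` whose image in
   `Aut (E i)` has the order `h i` (with the exception of the supersingular case, see `generic`).
-/

set_option autoImplicit false

namespace Pool.Agent.Results.MP_0dad22_ag.ExactDensities

open NumberField IsDedekindDomain Filter Topology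
open Pool.Agent.W401.Cheb Pool.Agent.W528.Ord Pool.Agent.N184.HK Pool.Agent.N397.HO
open Pool.Agent.Zk8.KT

theorem result {F : Type} [Field F] [NumberField F] {ι : Type} [Finite ι]
    (ℓ : ι → ℕ) [∀ i, Fact (ℓ i).Prime]
    (X : ∀ i, Hyperkaehler F (ℓ i)) (D : ∀ i, Transc (X i))
    (W : Fam (𝓞 F)) (hW : BuiltFrom X W) {κ : Type} [Finite κ] (m : κ → ℕ)
    (S : ∀ k, Summand W (m k)) :
    -- finitely many arbitrary summands
    (1 / ((image D).ncard : ℝ) ≤ lowerDensity fun v : HeightOneSpectrum (𝓞 F) =>
      ∀ k, SummandOrd (S k) v) ∧
    ∀ (V : ι → Fam (𝓞 F)) (R : ∀ i, Summand (V i) 2), (∀ i, IsData (X i) (V i)) →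
      (∀ i, (0 : ℚ) ∈ (R i).hodge ∧ (2 : ℚ) ∈ (R i).hodge ∧ ∀ v, ∃ t, (R i).ok v t) →
      -- the exact density
      Tendsto (ratio fun v : HeightOneSpectrum (𝓞 F) =>
        (∀ i, SummandOrd (R i) v) ∧ ∀ k, SummandOrd (S k) v) atTop
        (𝓝 (1 / ((image D).ncard : ℝ))) ∧
      -- the density of every family of heights
      ∀ h : ι → ℕ, Tendsto (ratio fun v : HeightOneSpectrum (𝓞 F) =>
        ∀ i, SummandHeight (R i) v (h i)) atTop
        (𝓝 (((withHeights D h).ncard : ℝ) / ((image D).ncard : ℝ))) :=
  ⟨lower_all D hW m S, fun V R hV hR =>
    ⟨exact_density D V hV R hR hW m S, exact_heights D V hV R hR⟩⟩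

end Pool.Agent.Results.MP_0dad22_ag.ExactDensities
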